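import Pool.Agent.Helper16.SD.GoalsD

set_option autoImplicit false

namespace Pool.Agent.Helper37.SD.Z_PSI

open NumberField Module IsDedekindDomain TensorProduct
open Pool.Agent.Helper51.SigLeo Pool.Agent.Helper51.RP Pool.Agent.Helper51.REC
open Pool.Agent.Helper38.FD (Chr CutsOut LeopoldtFor)
open Pool.Agent.Helper38.FW (InDec)
open Pool.Agent.Helper38.TH (IsTower Hat)
open Pool.Agent.Helper17.TH (ug exO tm)
open Pool.Agent.Helper16.SD

lemma num (p : ℕ) (hp : 1 < p) (N C k : ℕ) :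
    (p : ℝ) ^ C * (1 / p : ℝ) ^ (N + C + k) ≤ (1 / p : ℝ) ^ N := by
  have h0 : (0 : ℝ) < p := by exact_mod_cast (by omega : 0 < p)
  have h1 : (1 : ℝ) ≤ p := by exact_mod_cast hp.le
  have e : (p : ℝ) ^ C * (1 / p : ℝ) ^ (N + C + k) = (1 / p : ℝ) ^ N * (1 / p : ℝ) ^ k := by
    rw [pow_add, pow_add]
    have : (p : ℝ) ^ C * (1 / p : ℝ) ^ C = 1 := by
      rw [← mul_pow, mul_one_div_cancel h0.ne', one_pow]
    calc _ = ((p : ℝ) ^ C * (1 / p : ℝ) ^ C) * ((1 / p : ℝ) ^ N * (1 / p : ℝ) ^ k) := by ring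
      _ = _ := by rw [this, one_mul]
  rw [e]
  have h2 : (1 / p : ℝ) ^ k ≤ 1 := pow_le_one₀ (by positivity) (by
    rw [div_le_one h0]; exact h1)
  calc _ ≤ (1 / p : ℝ) ^ N * 1 := by gcongr
    _ = _ := mul_one _

theorem t (hOne : Z_ONE) (hTwo : Z_TWO) (hTen : Z_TEN) (hXQ : K_XQ) :
    Pool.Agent.Helper16.SD.Z_PSI := by
  intro p _ K _ _ Lg E _ _ T hT O _ _ _ _ _ j hj hjalg k
  obtain ⟨N, n₀, hN⟩ := hOne p K Lg E k
  obtain ⟨C, hC⟩ := hTwo p K Lg E T hT O j hj hjalg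
  refine ⟨n₀, fun n hn ζ hζ M hEM hζM hM Ψ hΨ z hz τ hτ h hh hdec => ?_⟩
  have hp : 1 < p := (Fact.out : p.Prime).one_lt
  let b := Module.finBasis ℤ_[p] O
  obtain ⟨e, y, hzy⟩ := (hTen p O _ b (Additive (𝓞 E)ˣ) (N + C + k)).1 z
  have hsmall := hC _ b (N + C + k) z y e hz hzy
  have hmem : τ.comp (algebraMap E (AlgebraicClosure K)) ∈
      (above T : Set (E →+* ℂ_[p])) := by
    change (τ.comp (algebraMap E (AlgebraicClosure K))).comp (algebraMap K E) ∈ T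
    rw [RingHom.comp_assoc, ← IsScalarTower.algebraMap_eq K E (AlgebraicClosure K)]
    exact hτ
  have hker : Ψ (∑ i, b i ⊗ₜ Additive.ofMul (Additive.toMul (e i))) h = 0 := by
    rw [hΨ.ker _ b (fun i => Additive.toMul (e i)) h hh]
    intro i
    refine hN _ τ ?_ ζ hζ h (fun x hx => hh x (hEM hx)) (fun ξ hξ => ?_) hdec
    · exact le_trans (hsmall _ hmem i) (num p hp N C k)
    · refine hh ξ (hM ξ ?_)
      obtain ⟨c, hc⟩ := Nat.exists_eq_add_of_le hn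
      rw [hc, pow_add, pow_mul, hξ, one_pow]
  have hker' : Ψ (∑ i, b i ⊗ₜ e i) h = 0 := hker
  have hX := (hXQ p O k).1
  have h2 : Ψ (p ^ (N + C + k) • y) h = 0 := by
    rw [map_nsmul, Pi.smul_apply, show p ^ (N + C + k) = p ^ (N + C) * p ^ k from pow_add _ _ _,
      mul_smul, hX, smul_zero]
  rw [hzy, map_add, Pi.add_apply, hker', h2, add_zero]

end Pool.Agent.Helper37.SD.Z_PSI
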