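import Pool.Agent.Helper78.SD.Goals2

/-!
# Packet IDEM: an idempotent with local quotient
-/

universe v

namespace Pool.Agent.Helper37.SD

open Pool.Agent.Helper78.SD

theorem goalIdem : GoalIdem.{v} := by
  intro C _ _ E h1 h0 hid hsplit
  -- choose `e` with minimal ideal
  obtain ⟨I, ⟨e, heE, rfl⟩, hmin⟩ :=
    (wellFounded_lt (α := Ideal C)).has_min ((fun e => Ideal.span {e}) '' E) ⟨_, 1, h1, rfl⟩
  have hmin' : ∀ f ∈ E, Ideal.span {f} ≤ Ideal.span {e} → e ∈ Ideal.span ({f} : Set C) := by
    intro f hf hle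
    have h2 := hmin _ ⟨f, hf, rfl⟩
    have h3 : Ideal.span {f} = Ideal.span ({e} : Set C) := by
      by_contra hne
      exact h2 (lt_of_le_of_ne hle hne)
    rw [h3]
    exact Ideal.mem_span_singleton_self e
  have hee : e * e = e := hid e heE
  have hne : e ≠ 0 := fun h => h0 (h ▸ heE)
  refine ⟨e, heE, ?_⟩
  have hnt : Nontrivial (C ⧸ Ideal.span {1 - e}) := by
    rw [Ideal.Quotient.nontrivial_iff]
    intro htop
    have h2 : (1 : C) ∈ Ideal.span ({1 - e} : Set C) := by rw [htop]; trivial
    rw [Ideal.mem_span_singleton'] at h2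
    obtain ⟨c, hc⟩ := h2
    apply hne
    calc e = e * 1 := (mul_one e).symm
      _ = e * (c * (1 - e)) := by rw [hc]
      _ = c * (e - e * e) := by ring
      _ = 0 := by rw [hee]; ring
  -- `e = e * f * c` implies that the class of `f` is one
  have key : ∀ g : C, g * g = g → e ∈ Ideal.span ({e * g} : Set C) →
      (Ideal.Quotient.mk (Ideal.span {1 - e}) g) = 1 := by
    intro g hg hm
    rw [Ideal.mem_span_singleton'] at hm
    obtain ⟨c, hc⟩ := hm
    have h2 : e * (1 - g) = 0 := by
      calc e * (1 - g) = (c * (e * g)) * (1 - g) := by rw [hc]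
        _ = c * e * (g - g * g) := by ring
        _ = 0 := by rw [hg]; ring
    rw [← map_one (Ideal.Quotient.mk (Ideal.span {1 - e})), Ideal.Quotient.mk_eq_mk_iff_sub_mem,
      Ideal.mem_span_singleton']
    refine ⟨g - 1, ?_⟩
    have h3 : (g - 1) * (1 - e) = g - 1 + e * (1 - g) := by ring
    rw [h3, h2, add_zero]
  refine IsLocalRing.of_isUnit_or_isUnit_one_sub_self ?_
  intro x'
  obtain ⟨x, rfl⟩ := Ideal.Quotient.mk_surjective x'
  obtain ⟨n, hn⟩ := IsArtinian.exists_pow_succ_smul_dvd x (1 : C)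
  obtain ⟨z, hz⟩ := hn
  have hz' : x ^ n = x ^ (n + 1) * z := by
    simpa [smul_eq_mul] using hz.symm
  -- x^n = x^(n+k) z^k
  have hk : ∀ k : ℕ, x ^ n = x ^ (n + k) * z ^ k := by
    intro k
    induction k with
    | zero => simp
    | succ k ih =>
      calc x ^ n = x ^ (n + k) * z ^ k := ih
        _ = x ^ n * (x ^ k * z ^ k) := by rw [pow_add]; ring
        _ = x ^ (n + 1) * z * (x ^ k * z ^ k) := by rw [← hz']
        _ = x ^ (n + (k + 1)) * z ^ (k + 1) := by ring
  -- the exponent `m = n + 1`
  set m := n + 1 with hm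
  set y := z ^ m with hy
  have hxm : x ^ m = x ^ (2 * m) * y := by
    have h2 := hk m
    calc x ^ m = x * x ^ n := by rw [hm]; ring
      _ = x * (x ^ (n + m) * z ^ m) := by rw [← h2]
      _ = x ^ (2 * m) * y := by
          rw [hy, hm]; ring
  set f := x ^ m * y with hf
  have hff : f * f = f := by
    calc f * f = (x ^ (2 * m) * y) * y := by rw [hf]; ring
      _ = f := by rw [← hxm]
  have hle : ∀ g : C, Ideal.span {e * g} ≤ Ideal.span ({e} : Set C) := by
    intro g
    rw [Ideal.span_singleton_le_span_singleton]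
    exact dvd_mul_right e g
  rcases hsplit e heE f hff with h | h
  · left
    have h2 := key f hff (hmin' _ h (hle f))
    have h3 : Ideal.Quotient.mk (Ideal.span {1 - e}) x *
        Ideal.Quotient.mk (Ideal.span {1 - e}) (x ^ n * y) = 1 := by
      rw [← map_mul, ← h2, hf, hm]
      congr 1
      ring
    exact IsUnit.of_mul_eq_one _ h3
  · right
    have h2 := key (1 - f) (by
      have : (1 - f) * (1 - f) = 1 - 2 * f + f * f := by ring
      rw [this, hff]; ring) (hmin' _ h (hle _))
    have h3 : Ideal.Quotient.mk (Ideal.span {1 - e}) f = 0 := by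
      rw [map_sub, map_one] at h2
      have := sub_eq_self.mp h2
      exact this
    have h4 : (Ideal.Quotient.mk (Ideal.span {1 - e}) x) ^ m = 0 := by
      rw [← map_pow]
      have h5 : x ^ m = x ^ m * f := by
        calc x ^ m = x ^ (2 * m) * y := hxm
          _ = x ^ m * f := by rw [hf]; ring
      rw [h5, map_mul, h3, mul_zero]
    have h5 : IsNilpotent (Ideal.Quotient.mk (Ideal.span {1 - e}) x) := ⟨m, h4⟩
    exact h5.isUnit_one_sub

end Pool.Agent.Helper37.SD
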