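import Pool.Agent.Helper71.SD.Goals

namespace Pool.Agent.Helper71.SD.NBR

open Pool.Agent.Helper71.AHtpy SimpleGraph

theorem tog_inj {a c : E} {S : Finset E} (h : tog c S = tog a S) : c = a := by
  by_contra hne
  have h1 := Finset.ext_iff.mp h a
  have h2 := Finset.ext_iff.mp h c
  rw [mem_tog, mem_tog] at h1 h2
  by_cases ha : a ∈ S
  · simp [ha] at h1
    exact hne h1.symm
  · simp [ha] at h1
    exact hne h1.symm

theorem lbl_iff : S_LBL := by
  intro V G A σ₁ S a
  unfold lbl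
  constructor
  · intro h
    split_ifs at h with h1
    have h2 := h1.choose_spec
    rw [Option.some_inj] at h
    rw [h] at h2
    exact h2
  · intro h
    have h1 : ∃ a, σ₁ S = pt 6 (A.b (.mid (tog a S))) 3 := ⟨a, h⟩
    rw [dif_pos h1, Option.some_inj]
    have h2 := h.symm.trans h1.choose_spec
    rw [pt_eq_iff (by norm_num) (by norm_num)] at h2
    rcases h2.2 with h3 | h3 | h3
    · omega
    · omega
    · have h4 := A.b_inj h3
      rw [C0.mid.injEq] at h4
      exact (tog_inj h4).symm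

theorem nbr : S_L1UP → S_XC1 → S_XC2 → S_NBR := by
  intro hL hX1 hX2 V G A σ₀ σ₁ hP S hS
  obtain ⟨x1, x2, x3, -, -, -, -, x8⟩ := hX1
  obtain ⟨-, y2, -⟩ := hX2
  -- sets with between 23 and 37 elements
  have big : ∀ T : Finset E, 23 ≤ T.card → T.card ≤ 37 → (∃ a, 6 ≤ cnt a T) ∧ ∃ a, 6 ≤ cnt a Tᶜ := by
    intro T h1 h2
    have e := x2 T
    have e0 := x1 0 T
    have e1 := x1 1 T
    have e2 := x1 2 T
    constructor
    · by_contra hc
      push Not at hc
      have := hc 0; have := hc 1; have := hc 2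
      omega
    · by_contra hc
      push Not at hc
      have := hc 0; have := hc 1; have := hc 2
      omega
  have xcm : ∀ T : Finset E, 23 ≤ T.card → T.card ≤ 37 → xc T = .mid T := fun T h1 h2 =>
    (y2 T T).2 ⟨rfl, big T h1 h2⟩
  obtain ⟨hS1, hS2⟩ := hS
  have hb := big S (by omega) (by omega)
  have hxc := xcm S (by omega) (by omega)
  have h0 : σ₀ S = pt 6 (A.b (.mid S)) 3 := by
    have := hL V G A 6 3 σ₀ hP.ess.1 (by norm_num) (by norm_num) hP.ess.2.1 S
      (by obtain ⟨a, ha⟩ := hb.1; exact ⟨a, by omega⟩)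
      (by obtain ⟨a, ha⟩ := hb.2; exact ⟨a, by omega⟩)
    rw [hxc] at this
    exact this
  refine ⟨h0, ?_⟩
  obtain ⟨v, l, hl, hv⟩ := exists_pt (σ₁ S)
  have hn := hP.near S
  rw [h0, hv, near_pt_iff (by norm_num) hl] at hn
  obtain ⟨⟨n1, n2⟩, n3⟩ := hn
  rcases n3 with h | h | h | h | h | ⟨h, hadj⟩
  · omega
  · omega
  · omega
  · omega
  · rw [hv, ← h]
    have : l = 2 ∨ l = 3 ∨ l = 4 := by omega
    rcases this with rfl | rfl | rfl
    · exact Or.inr (Or.inl rfl)
    · exact Or.inl rfl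
    · exact Or.inr (Or.inr (Or.inl rfl))
  · subst h
    rcases A.nbr S hxc v hadj with ⟨T, ⟨a, rfl⟩, hT⟩ | hft
    · have hc := x8 a S
      have hT1 : 23 ≤ (tog a S).card ∧ (tog a S).card ≤ 37 := by
        by_cases ha : a ∈ S
        · have := hc.1 ha; omega
        · have := hc.2 ha; omega
      rw [xcm _ hT1.1 hT1.2] at hT
      exact Or.inr (Or.inr (Or.inr (Or.inl ⟨a, by rw [hv, hT]⟩)))
    · exact Or.inr (Or.inr (Or.inr (Or.inr ⟨v, hft, hv⟩)))

end Pool.Agent.Helper71.SD.NBR
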