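import Pool.Agent.Helper71.SD.Goals

namespace Pool.Agent.Helper71.SD.NOUP

open Pool.Agent.Helper71.AHtpy SimpleGraph

theorem small_cnt_le {z : Finset E} (h : Small z) (a : Fin 3) : cnt a z ≤ 4 :=
  (Finset.card_filter_le _ _).trans h.1

theorem small_cnt {z : Finset E} (h : Small z) : ∃ a, cnt a z = z.card := by
  obtain ⟨-, a, ha⟩ := h
  refine ⟨a, ?_⟩
  unfold cnt
  rw [Finset.filter_true_of_mem ha]

theorem cor6 : S_HOLE → S_HL4 → S_HL5 → S_HLR → S_XC1 → S_COR6 := by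
  intro hH h4 h5 hR _ V G A n j σ hg hB hj hn
  obtain ⟨hole, -⟩ := hH V G A n j σ hg (by omega) (by omega) (by omega) hB
  obtain ⟨z, hz, h | h⟩ := h4 V G A.eta A.F n j σ hole
  · exact h5 V G A.eta A.F n j σ hole hj z (small_cnt_le hz) h
  · exact hR.1 V G A.eta A.F n j σ hole hn z (small_cnt_le hz) h

theorem mkess : S_HOLE → S_HL2 → S_HL4 → S_XC1 → S_MKESS := by
  intro hH h2 h4 _ V G A σ hg hB hz0 hz6
  obtain ⟨hole, hole'⟩ := hH V G A 6 3 σ hg (by norm_num) (by norm_num) (by norm_num) hB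
  refine ⟨hg, hB, ?_, ?_⟩
  · obtain ⟨z, hz, h | h⟩ := h4 V G A.eta A.F 6 3 σ hole
    · exact ⟨z, hz, h⟩
    · exfalso
      obtain ⟨a, ha⟩ := small_cnt hz
      have := (h2 V G A.eta A.F 6 3 σ hole z (fun b => (small_cnt_le hz b).trans (by norm_num)) a).2
      have hc := hz.1
      exact hz0 z (by omega) h
  · obtain ⟨z, hz, h | h⟩ := h4 V G A.eta A.F' 6 3 _ hole'
    · exfalso
      obtain ⟨a, ha⟩ := small_cnt hz
      have := (h2 V G A.eta A.F' 6 3 _ hole' z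
        (fun b => (small_cnt_le hz b).trans (by norm_num)) a).1
      have hc := hz.1
      exact hz6 z (by omega) h
    · exact ⟨z, hz, h⟩

theorem levb : S_HOLE → S_HL7 → S_HLR → S_LEVB := by
  intro hH h7 hR V G A σ hE
  obtain ⟨hg, hB, ⟨z, hz, hz0⟩, ⟨y, hy, hy6⟩⟩ := hE
  obtain ⟨hole, hole'⟩ := hH V G A 6 3 σ hg (by norm_num) (by norm_num) (by norm_num) hB
  exact ⟨fun S hS => h7 V G A.eta A.F σ hole z hz hz0 S hS,
    fun S hS => hR.2 V G A.eta A.F' _ hole' y hy hy6 S hS⟩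

theorem noup : S_HOLE → S_HL2 → S_HL4 → S_HL5 → S_HLR → S_XC1 → S_NOUP := by
  intro hH h2 h4 h5 hR _ V G A σ hg
  constructor
  · intro hB
    obtain ⟨hole, -⟩ := hH V G A 6 4 σ hg (by norm_num) (by norm_num) (by norm_num) hB
    obtain ⟨z, hz, h | h⟩ := h4 V G A.eta A.F 6 4 σ hole
    · exact absurd h (h5 V G A.eta A.F 6 4 σ hole le_rfl z (small_cnt_le hz))
    · refine ⟨z, ?_, h⟩
      obtain ⟨a, ha⟩ := small_cnt hz
      have := (h2 V G A.eta A.F 6 4 σ hole z (fun b => (small_cnt_le hz b).trans (by norm_num)) a).2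
      have hc := hz.1
      omega
  · intro hB
    obtain ⟨-, hole'⟩ := hH V G A 6 2 σ hg (by norm_num) (by norm_num) (by norm_num) hB
    obtain ⟨z, hz, h | h⟩ := h4 V G A.eta A.F' 6 2 _ hole'
    · refine ⟨z, ?_, h⟩
      obtain ⟨a, ha⟩ := small_cnt hz
      have := (h2 V G A.eta A.F' 6 2 _ hole' z
        (fun b => (small_cnt_le hz b).trans (by norm_num)) a).1
      have hc := hz.1
      omega
    · exact absurd h (hR.1 V G A.eta A.F' 6 2 _ hole' (by norm_num) z (small_cnt_le hz))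

end Pool.Agent.Helper71.SD.NOUP
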