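import Pool.Agent.Helper37.SD.NBR

namespace Pool.Agent.Helper71.SD.RULE

open Pool.Agent.Helper71.AHtpy SimpleGraph

theorem mem_tog_self {a : E} {S : Finset E} : a ∈ tog a S ↔ a ∉ S := by
  rw [mem_tog]; simp

theorem mem_tog_ne {a i : E} {S : Finset E} (h : i ≠ a) : i ∈ tog a S ↔ i ∈ S := by
  rw [mem_tog]; simp [h]

theorem parity (hX : S_XC1) (a : E) (S : Finset E) : (tog a S).card % 2 = (S.card + 1) % 2 := by
  have h := hX.2.2.2.2.2.2.2 a S
  by_cases ha : a ∈ S
  · have := h.1 ha; omega
  · have := h.2 ha; omega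

theorem card_tog (hX : S_XC1) (a : E) (S : Finset E) :
    S.card ≤ (tog a S).card + 1 ∧ (tog a S).card ≤ S.card + 1 := by
  have h := hX.2.2.2.2.2.2.2 a S
  by_cases ha : a ∈ S
  · have := h.1 ha; omega
  · have := h.2 ha; omega

theorem xc_mid (hX : S_XC1) (hY : S_XC2) {T : Finset E} (h1 : 23 ≤ T.card) (h2 : T.card ≤ 37) :
    xc T = .mid T := by
  obtain ⟨x1, x2, -⟩ := hX
  refine (hY.2.1 T T).2 ⟨rfl, ?_⟩
  have e := x2 T
  have e0 := x1 0 T
  have e1 := x1 1 T
  have e2 := x1 2 T
  constructor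
  · by_contra hc
    push Not at hc
    have := hc 0; have := hc 1; have := hc 2
    omega
  · by_contra hc
    push Not at hc
    have := hc 0; have := hc 1; have := hc 2
    omega

section

variable {V : Type} {G : SimpleGraph V} (A : Amb G) {σ₀ σ₁ : Finset E → Quotient (suspSetoid V 6)}

theorem near_edge (hP : Pair A σ₀ σ₁) (S : Finset E) (a : E) :
    Near (Susp G 6) (σ₁ S) (σ₁ (tog a S)) := by
  exact hP.g1.near (Or.inr ⟨a, rfl⟩)

theorem mid_inj {S T : Finset E} (h : A.b (.mid S) = A.b (.mid T)) : S = T := by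
  have := A.b_inj h
  rwa [C0.mid.injEq] at this

/-- one label `some`, the other one `none` -/
theorem keyK (hN : S_NBR) (hL : S_LBL) (hX : S_XC1) (hY : S_XC2) (hP : Pair A σ₀ σ₁)
    {S : Finset E} {a c : E} (hS' : Bd 6 (tog a S))
    (hc : lbl A σ₁ S = some c) (hn : lbl A σ₁ (tog a S) = none)
    (hnear : Near (Susp G 6) (σ₁ S) (σ₁ (tog a S))) : c = a := by
  rw [hL] at hc
  rw [hc] at hnear
  obtain ⟨b1, b2⟩ := hS'
  rcases (hN V G A σ₀ σ₁ hP (tog a S) ⟨b1, b2⟩).2 with h | h | h | ⟨a', h⟩ | ⟨v, hv, h⟩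
  · rw [h, near_pt_iff (by norm_num) (by norm_num)] at hnear
    obtain ⟨-, h3 | h3 | h3 | h3 | h3 | ⟨-, h3⟩⟩ := hnear
    · omega
    · omega
    · omega
    · omega
    · exact NBR.tog_inj (mid_inj A h3)
    · rcases A.nbr _ (xc_mid hX hY (by omega) (by omega)) _ h3.symm with ⟨T, ⟨f, rfl⟩, hT⟩ | hft
      · have hcc := card_tog hX f (tog a S)
        rw [xc_mid hX hY (by omega) (by omega)] at hT
        have := mid_inj A hT
        have p1 := parity hX c S
        have p2 := parity hX f (tog a S)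
        have p3 := parity hX a S
        rw [this] at p1
        omega
      · rw [A.ft_b] at hft
        exact absurd hft (by simp)
  · rw [h, near_pt_iff (by norm_num) (by norm_num)] at hnear
    obtain ⟨-, h3 | h3 | h3 | h3 | h3 | ⟨h3, -⟩⟩ := hnear
    · omega
    · omega
    · omega
    · omega
    · exact NBR.tog_inj (mid_inj A h3)
    · omega
  · rw [h, near_pt_iff (by norm_num) (by norm_num)] at hnear
    obtain ⟨-, h3 | h3 | h3 | h3 | h3 | ⟨h3, -⟩⟩ := hnear
    · omega
    · omega
    · omega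
    · omega
    · exact NBR.tog_inj (mid_inj A h3)
    · omega
  · have := (hL V G A σ₁ (tog a S) a').2 h
    rw [hn] at this
    exact absurd this (by simp)
  · rw [h, near_pt_iff (by norm_num) (by norm_num)] at hnear
    obtain ⟨-, h3 | h3 | h3 | h3 | h3 | ⟨-, h3⟩⟩ := hnear
    · omega
    · omega
    · omega
    · omega
    · rw [← h3, A.ft_b] at hv
      exact absurd hv (by simp)
    · have := A.ft_nbr v _ _ hv h3.symm
      rw [C0.mid.injEq] at this
      exact NBR.tog_inj this

/-- both labels `some` -/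
theorem keyK2 (hL : S_LBL) (hX : S_XC1) (hY : S_XC2)
    {S : Finset E} {a c d : E} (hS : Bd 6 S)
    (hc : lbl A σ₁ S = some c) (hd : lbl A σ₁ (tog a S) = some d)
    (hnear : Near (Susp G 6) (σ₁ S) (σ₁ (tog a S))) : c = d ∨ c = a ∨ d = a := by
  rw [hL] at hc hd
  obtain ⟨b1, b2⟩ := hS
  rw [hc, hd, near_pt_iff (by norm_num) (by norm_num)] at hnear
  obtain ⟨-, h3 | h3 | h3 | h3 | h3 | ⟨-, h3⟩⟩ := hnear
  · omega
  · omega
  · omega
  · omega
  · have := mid_inj A h3
    have p1 := parity hX c S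
    have p2 := parity hX d (tog a S)
    have p3 := parity hX a S
    rw [this] at p1
    omega
  · have hcc := card_tog hX c S
    rcases A.nbr _ (xc_mid hX hY (T := tog c S) (by omega) (by omega)) _ h3 with
      ⟨T, ⟨f, rfl⟩, hT⟩ | hft
    · have h4 := A.b_inj hT
      have h5 := ((hY.2.1 _ _).1 h4.symm).1
      by_contra hne
      push Not at hne
      obtain ⟨n1, n2, n3⟩ := hne
      have h6 := Finset.ext_iff.mp h5 c
      rw [mem_tog_ne n1, mem_tog_ne n2] at h6
      by_cases hf : f = c
      · subst hf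
        rw [tog_tog] at h5
        have h7 := Finset.ext_iff.mp h5 a
        rw [mem_tog_ne (Ne.symm n3), mem_tog_self] at h7
        tauto
      · rw [mem_tog_ne (Ne.symm hf), mem_tog_self] at h6
        tauto
    · rw [A.ft_b] at hft
      exact absurd hft (by simp)

end

theorem rule : S_NBR → S_LBL → S_XC1 → S_XC2 → S_RULE := by
  intro hN hL hX hY V G A σ₀ σ₁ hP S a hS hS'
  have hnear := near_edge A hP S a
  cases h1 : lbl A σ₁ S with
  | none =>
    cases h2 : lbl A σ₁ (tog a S) with
    | none => exact Or.inl rfl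
    | some d =>
      right; right
      have hS2 : Bd 6 (tog a (tog a S)) := by rw [tog_tog]; exact hS
      have := keyK A hN hL hX hY hP (S := tog a S) (a := a) hS2 h2 (by rw [tog_tog]; exact h1)
        (by rw [tog_tog]; exact hnear.symm)
      rw [this]
  | some c =>
    cases h2 : lbl A σ₁ (tog a S) with
    | none =>
      right; left
      rw [keyK A hN hL hX hY hP hS' h1 h2 hnear]
    | some d =>
      rcases keyK2 A hL hX hY hS h1 h2 hnear with h | h | h
      · exact Or.inl (by rw [h])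
      · exact Or.inr (Or.inl (by rw [h]))
      · exact Or.inr (Or.inr (by rw [h]))

end Pool.Agent.Helper71.SD.RULE
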