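import Pool.Agent.Helper16.SD.GoalsX
import Pool.Agent.Helper17.TH.EXT
import Pool.Agent.Helper80.TH.UNR
import Pool.Agent.Helper80.TH.SPL
import Pool.Agent.Helper32.TH.DUNR

set_option autoImplicit false

namespace Pool.Agent.Helper37.SD.X_TW

open NumberField Module IsDedekindDomain TensorProduct Polynomial
open Pool.Agent.Helper51.SigLeo Pool.Agent.Helper51.RP Pool.Agent.Helper51.REC
open Pool.Agent.Helper42.RD (TSet)
open Pool.Agent.Helper38.FD (Chr CutsOut LeopoldtFor)
open Pool.Agent.Helper38.FW (InDec)
open Pool.Agent.Helper38.TH (IsTower Hat)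
open Pool.Agent.Helper17.TH (ug exO tm Tw Wsub Acts)
open Pool.Agent.Helper16.SD

lemma cuts {p : ℕ} [Fact p.Prime] {K : Type} [Field K] [NumberField K]
    (χ : Chr K (AlgebraicClosure K) ℂ_[p]) (F : IntermediateField K (AlgebraicClosure K))
    [FiniteDimensional K F] (h : ∀ g, (∀ x ∈ F, g x = x) → χ g = 1) :
    ∃ E : IntermediateField K (AlgebraicClosure K), FiniteDimensional K E ∧ CutsOut χ E := by
  have hle : F.fixingSubgroup ≤ χ.ker := by
    intro g hg
    rw [IntermediateField.mem_fixingSubgroup_iff] at hg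
    exact h g hg
  have hopen : IsOpen (χ.ker : Set (AlgebraicClosure K ≃ₐ[K] AlgebraicClosure K)) :=
    Subgroup.isOpen_mono hle (IntermediateField.fixingSubgroup_isOpen F)
  have hcl : IsClosed (χ.ker : Set (AlgebraicClosure K ≃ₐ[K] AlgebraicClosure K)) :=
    Subgroup.isClosed_of_isOpen _ hopen
  let C : ClosedSubgroup (AlgebraicClosure K ≃ₐ[K] AlgebraicClosure K) := ⟨χ.ker, hcl⟩
  have hfix := InfiniteGalois.fixingSubgroup_fixedField (k := K) (K := AlgebraicClosure K) C
  refine ⟨IntermediateField.fixedField χ.ker, ?_, ?_⟩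
  · have h1 : IntermediateField.fixedField χ.ker ≤ F := by
      have h2 := IntermediateField.fixedField_antitone hle
      rwa [InfiniteGalois.fixedField_fixingSubgroup] at h2
    exact FiniteDimensional.of_injective (IntermediateField.inclusion h1).toLinearMap
      (IntermediateField.inclusion h1).injective
  · intro g
    have h3 : g ∈ (IntermediateField.fixedField χ.ker).fixingSubgroup ↔ g ∈ χ.ker := by
      have : (IntermediateField.fixedField C.toSubgroup).fixingSubgroup = C.toSubgroup := hfix
      change g ∈ (IntermediateField.fixedField C.toSubgroup).fixingSubgroup ↔ _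
      rw [this]
    rw [IntermediateField.mem_fixingSubgroup_iff, MonoidHom.mem_ker] at h3
    exact h3.symm

theorem t : Pool.Agent.Helper16.SD.X_TW := by
  intro p _ K _ _ Lg η om u hC χ ν F _ _ B hB
  have hF : FiniteDimensional K F := inferInstance
  obtain ⟨E, hE1, hE2⟩ := cuts χ F (fun g hg => ((hB.cutF g).1 hg).1)
  exact Pool.Agent.Helper17.TH.exists_tw Pool.Agent.Helper80.TH.s_unr Pool.Agent.Helper80.TH.s_spl
    χ η hC.tower (Pool.Agent.Helper32.TH.d_unr p K η hC.tower) (fun τ _ => hB.dec τ) E hE2

end Pool.Agent.Helper37.SD.X_TW
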